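import Mathlib
import Pool.Agent.H.MP_ed747a_al.B

namespace Pool.Agent.H.MP_da3691_al

open Filter Topology Equiv Pool.Agent.H.MP_ed747a_al

def L := Lex X
noncomputable instance : LinearOrder L := inferInstanceAs (LinearOrder (Lex X))
def lx : X → L := toLex

theorem cn_lt {a b : Bool} {y z : X} : lx (cn a y) < lx (cn b z) ↔ a < b ∨ a = b ∧ lx y < lx z := by
  constructor
  · rintro ⟨_ | i, h, k⟩
    exacts [.inl k, .inr ⟨h 0 i.succ_pos, i, fun j d => h (j + 1) (by omega), k⟩]
  · rintro (h | ⟨rfl, i, h, k⟩)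
    · exact ⟨0, by simp, h⟩
    · exact ⟨i + 1, by rintro (_ | j) d; exacts [rfl, h j (by omega)], k⟩

theorem cn_sh (y : X) : ∃ a w, y = cn a w := ⟨y 0, sh 1 y, by funext i; cases i <;> rfl⟩

theorem cat_lt_iff (a : List Bool) {y z : X} : lx (cat a y) < lx (cat a z) ↔ lx y < lx z := by
  induction a <;> simp [cat_nil, cat_cons, cn_lt, *]

theorem cone (a : List Bool) {y u w : X} (h : ¬ lx y < lx (cat a u)) (k : ¬ lx (cat a w) < lx y) : y ∈ Set.range (cat a) := by
  induction a generalizing y with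
  | nil => exact ⟨y, cat_nil y⟩
  | cons b a ih =>
    obtain ⟨d, y, rfl⟩ := cn_sh y
    simp only [cat_cons, cn_lt, not_or, not_and] at h k
    obtain rfl := le_antisymm (not_lt.1 h.1) (not_lt.1 k.1)
    exact (ih (h.2 rfl) (k.2 rfl)).imp fun _ d => by rw [cat_cons, d]

/-- order preserving permutations -/
def Mo : Subgroup (Perm X) where
  carrier := {f | ∀ y z, lx (f y) < lx (f z) ↔ lx y < lx z}
  one_mem' _ _ := .rfl
  mul_mem' a b _ _ := (a _ _).trans (b _ _)
  inv_mem' {f} a y z := by simpa using (a (f⁻¹ y) (f⁻¹ z)).symm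

theorem c00 (w : X) : c (cn false (cn false w)) = cn false w := rfl
theorem c01 (w : X) : c (cn false (cn true w)) = cn true (cn false w) := rfl
theorem c1 (w : X) : c (cn true w) = cn true (cn true w) := rfl

theorem c_mo : c ∈ Mo := fun y z => by
  obtain ⟨a, y, rfl⟩ := cn_sh y
  obtain ⟨a', y, rfl⟩ := cn_sh y
  obtain ⟨b, z, rfl⟩ := cn_sh z
  obtain ⟨b', z, rfl⟩ := cn_sh z
  cases a <;> cases a' <;> cases b <;> cases b' <;> simp [c00, c01, c1, cn_lt]

theorem on1 (b : Bool) (f : Perm X) (a : Bool) (w : X) : On [b] f (cn a w) = cn a (if a = b then f w else w) := by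
  split_ifs with h
  · simpa [cat_cons, cat_nil, h] using on_cat [b] f w
  · exact on_not f fun ⟨u, d⟩ => h (congrFun d 0).symm

theorem on_mo (b : Bool) {f : Perm X} (h : f ∈ Mo) : On [b] f ∈ Mo := fun y z => by
  obtain ⟨a, y, rfl⟩ := cn_sh y
  obtain ⟨a', z, rfl⟩ := cn_sh z
  simp only [on1, cn_lt]
  refine or_congr_right (and_congr_right ?_)
  rintro rfl
  split_ifs
  exacts [h _ _, .rfl]

theorem conj_on {g : Perm X} {a b : List Bool} (h : ∀ w, g (cat a w) = cat b w) (f : Perm X) : g * On a f * g⁻¹ = On b f :=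
  Perm.ext fun y => by
    by_cases d : y ∈ Set.range (cat b)
    · obtain ⟨w, rfl⟩ := d
      rw [on_cat, ← h, ← h]; simp [on_cat]
    · rw [on_not f d, Perm.mul_apply, Perm.mul_apply, on_not f fun ⟨w, i⟩ => d ⟨w, by rw [← h, i]; simp⟩]; simp

theorem on_cons (b : Bool) (a : List Bool) (f : Perm X) : On (b :: a) f = On [b] (On a f) := Perm.ext fun y => by
  obtain ⟨d, y, rfl⟩ := cn_sh y
  rw [on1]
  by_cases h : cn d y ∈ Set.range (cat (b :: a))
  · obtain ⟨w, h⟩ := h
    rw [← h, on_cat]
    rw [cat_cons] at h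
    rw [← show b = d from congrFun h 0, ← show cat a w = y from funext fun i => congrFun h (i + 1), if_pos rfl, on_cat, cat_cons]
  · rw [on_not f h]
    split_ifs with i
    · rw [on_not f fun ⟨w, j⟩ => h ⟨w, by rw [cat_cons, j, i]⟩]
    · rfl

theorem c_pos (y : X) : lx y ≤ lx (c y) := by
  have : ∀ b (w : X) i, (∀ j < i + 1, w j = cn b w j) → w i = b := fun b w i h => by
    induction i with
    | zero => exact h 0 one_pos
    | succ i ih => exact (h _ (by omega)).trans (ih fun j d => h j (by omega))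
  obtain ⟨a, y, rfl⟩ := cn_sh y
  refine not_lt.1 fun h => ?_
  cases a
  · obtain ⟨a, y, rfl⟩ := cn_sh y
    cases a <;> simp only [c00, c01, cn_lt] at h <;> simp at h
    · obtain ⟨_ | i, h, k⟩ := h
      · exact (Bool.false_le _).not_gt k
      · exact (Bool.false_le _).not_gt (lt_of_lt_of_eq k (this false y i h))
    · exact absurd h (by decide)
  · simp only [c1, cn_lt] at h
    simp at h
    obtain ⟨_ | i, h, k⟩ := h
    · exact (Bool.le_true _).not_gt k
    · exact (Bool.le_true _).not_gt (lt_of_eq_of_lt (this _ _ _ fun j d => (h j d).symm).symm k)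

theorem on_pos (a : List Bool) (y : X) : lx y ≤ lx (On a c y) := by
  by_cases h : y ∈ Set.range (cat a)
  · obtain ⟨w, rfl⟩ := h
    rw [on_cat, ← not_lt, cat_lt_iff, not_lt]; exact c_pos w
  · rw [on_not _ h]

theorem posfix {β : Type} [PartialOrder β] {ι : X → β} (hι : ι.Injective) {l : List (Perm X)} (h : ∀ f ∈ l, ∀ y, ι y ≤ ι (f y)) {y : X}
    (hy : l.prod y = y) : ∀ f ∈ l, f y = y := by
  have : ∀ l : List (Perm X), (∀ f ∈ l, ∀ y, ι y ≤ ι (f y)) → ι y ≤ ι (l.prod y) := fun l h => by
    induction l with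
    | nil => rfl
    | cons f l ih => exact (ih fun g a => h g (.tail _ a)).trans (h f (.head _) _)
  induction l with
  | nil => simp
  | cons f l ih =>
    have d : l.prod y = y := hι (le_antisymm ((h f (.head _) _).trans_eq (congrArg ι hy)) (this l fun g a => h g (.tail _ a)))
    exact List.forall_mem_cons.2 ⟨by simpa [d] using hy, ih (fun g a => h g (.tail _ a)) d⟩

theorem fixall {l : List (Perm X)} {y : X} (h : ∀ f ∈ l, f y = y) : l.prod y = y := by
  induction l <;> simp_all

section
variable {F : Type} [Group F] (a b : F)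

def x : ℕ → F
  | 0 => a
  | n + 1 => (a ^ n)⁻¹ * b * a ^ n

variable {a b} (h1 : Commute (a * b⁻¹) (a⁻¹ * b * a)) (h2 : Commute (a * b⁻¹) (a⁻¹ * a⁻¹ * b * a * a))
include h1 h2

theorem rel {i j : ℕ} (h : i < j) : x a b j * x a b i = x a b i * x a b (j + 1) := by
  have s : ∀ n, x a b (n + 2) = a⁻¹ * x a b (n + 1) * a := fun n => by simp [x, pow_succ, mul_assoc]
  have t : ∀ n k, Commute (a * b⁻¹) (x a b (n + 2)) → x a b (n + 2 + k) * x a b (k + 1) = x a b (k + 1) * x a b (n + 3 + k) := fun n k d => by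
    induction k with
    | zero =>
      have := d.eq
      rw [zero_add, add_zero, add_zero, s (n + 1), show x a b 1 = b by simp [x]]
      calc _ = b * a⁻¹ * (a * b⁻¹ * x a b (n + 2)) * b := by group
        _ = _ := by rw [this]; group
    | succ k ih =>
      rw [show n + 2 + (k + 1) = n + k + 1 + 2 by omega, show n + 3 + (k + 1) = n + k + 2 + 2 by omega, s (n + k + 1), s (n + k + 2), s k]
      rw [show n + 2 + k = n + k + 1 + 1 by omega, show n + 3 + k = n + k + 2 + 1 by omega] at ih
      calc _ = a⁻¹ * (x a b (n + k + 1 + 1) * x a b (k + 1)) * a := by simp [mul_assoc]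
        _ = _ := by rw [ih]; simp [mul_assoc]
  have u : ∀ n, Commute (a * b⁻¹) (x a b (n + 2)) := fun n => by
    induction n using Nat.twoStepInduction with
    | zero => simpa [x] using h1
    | one => simpa [x, pow_two, mul_assoc] using h2
    | more n i j =>
      have := t 0 (n + 1) (by simpa [x] using h1)
      rw [show 0 + 2 + (n + 1) = n + 1 + 2 by omega, show 0 + 3 + (n + 1) = n + 2 + 2 by omega] at this
      rw [eq_inv_mul_of_mul_eq this.symm]
      exact i.inv_right.mul_right (j.mul_right i)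
  obtain ⟨n, rfl⟩ := Nat.exists_eq_add_of_lt h
  cases i with
  | zero => simp [x, pow_succ, mul_assoc]
  | succ i => convert t n i (u n) using 3 <;> omega

theorem nf (g : F) (hg : g ∈ Subgroup.closure {a, b}) : ∃ p q : List ℕ, g = (p.map (x a b)).prod * (q.map (x a b)).prod⁻¹ := by
  have : ∀ (p : List ℕ) i, ∃ p' q : List ℕ, (x a b i)⁻¹ * (p.map (x a b)).prod = (p'.map (x a b)).prod * (q.map (x a b)).prod⁻¹ := fun p => by
    induction p with
    | nil => exact fun i => ⟨[], [i], by simp⟩
    | cons j p ih =>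
      intro i
      rcases lt_trichotomy i j with h | rfl | h
      · obtain ⟨p', q, d⟩ := ih i
        exact ⟨(j + 1) :: p', q, by simp [mul_assoc, ← d, inv_mul_eq_iff_eq_mul, ← mul_assoc (x a b i), ← rel h1 h2 h]⟩
      · exact ⟨p, [], by simp⟩
      · obtain ⟨p', q, d⟩ := ih (i + 1)
        refine ⟨j :: p', q, ?_⟩
        rw [List.map_cons, List.prod_cons, List.map_cons, List.prod_cons, mul_assoc, ← d, ← mul_assoc, ← mul_assoc, mul_left_inj,
          inv_mul_eq_iff_eq_mul, ← mul_assoc, rel h1 h2 h, mul_inv_cancel_right]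
  have m : ∀ g ∈ ({a, b} : Set F), ∃ i, g = x a b i := by rintro _ (rfl | rfl); exacts [⟨0, rfl⟩, ⟨1, by simp [x]⟩]
  induction hg using Subgroup.closure_induction_left with
  | one => exact ⟨[], [], by simp⟩
  | mul_left g h _ _ ih =>
    obtain ⟨i, rfl⟩ := m g h
    obtain ⟨p, q, rfl⟩ := ih
    exact ⟨i :: p, q, by simp [mul_assoc]⟩
  | inv_mul_cancel g h _ _ ih =>
    obtain ⟨i, rfl⟩ := m g h
    obtain ⟨p, q, rfl⟩ := ih
    obtain ⟨p', q', d⟩ := this p i
    exact ⟨p', q ++ q', by simp [← mul_assoc, d]⟩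

theorem pull (i : ℕ) (p : List ℕ) (h : i ∈ p) (k : ∀ j ∈ p, i ≤ j) :
    ∃ p' : List ℕ, p'.length < p.length ∧ (p.map (x a b)).prod = x a b i * (p'.map (x a b)).prod := by
  induction p with
  | nil => simp at h
  | cons j p ih =>
    rcases (k j (.head _)).eq_or_lt with rfl | d
    · exact ⟨p, by simp, by simp⟩
    · obtain ⟨p', l, f⟩ := ih (by simpa [d.ne] using h) fun j a => k j (.tail _ a)
      exact ⟨(j + 1) :: p', by simpa, by simp [f, ← mul_assoc, rel h1 h2 d]⟩

omit h1 h2 in
theorem rho_x (ρ : F →* Perm X) (ha : ρ a = c⁻¹) (hb : ρ b = On [true] c⁻¹) (n : ℕ) : ρ (x a b n) = On (.replicate n true) c⁻¹ := by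
  induction n using Nat.twoStepInduction with
  | zero => exact ha.trans (on_nil _).symm
  | one => simpa [x] using hb
  | more n _ j =>
    rw [← conj_on (g := c) (a := .replicate (n + 1) true) (fun w => by simp only [List.replicate_succ, cat_cons, c1]), ← j, ← inv_inv c, ← ha]
    simp [x, pow_succ, mul_assoc]

theorem faith (ρ : F →* Perm X) (ha : ρ a = c⁻¹) (hb : ρ b = On [true] c⁻¹) (hg : Subgroup.closure {a, b} = ⊤) : Function.Injective ρ := by
  have key : ∀ (i : ℕ) (p q : List ℕ), ρ (p.map (x a b)).prod = ρ (q.map (x a b)).prod → (∀ j ∈ p, i ≤ j) → i ∈ q → i ∈ p := fun i p q h k l => by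
    by_contra d
    simp only [map_list_prod, List.map_map, Function.comp_def, rho_x ρ ha hb] at h
    have := posfix (ι := fun y => OrderDual.toDual (lx y)) (fun _ _ => id) (l := q.map fun n => On (.replicate n true) c⁻¹)
      (y := cat (.replicate i true) (cn false fun _ => true)) (List.forall_mem_map.2 fun n _ y => by
        simpa using on_pos (.replicate n true) (On (.replicate n true) c⁻¹ y)) (h ▸ fixall (List.forall_mem_map.2 fun n f => on_not _ fun ⟨w, g⟩ => by
          have := (k n f).lt_of_ne fun e => d (e ▸ f)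
          simpa [cat, this, cn] using congrFun g i)) _ (List.mem_map_of_mem l)
    rw [on_cat] at this
    simpa using per (n := -1) (by simpa using cat_inj _ this)
  have : ∀ n (p q : List ℕ), p.length < n → ρ (p.map (x a b)).prod = ρ (q.map (x a b)).prod → (p.map (x a b)).prod = (q.map (x a b)).prod := fun n => by
    induction n with
    | zero => simp
    | succ n ih =>
      intro p q l h
      rcases eq_or_ne (p ++ q) [] with d | d
      · simp_all
      have m := List.min_mem d
      have k : ∀ j ∈ p ++ q, (p ++ q).min d ≤ j := fun j => List.min_le_of_mem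
      generalize (p ++ q).min d = i at m k
      simp only [List.mem_append, or_imp, forall_and] at m k
      obtain ⟨p', l1, d1⟩ := pull h1 h2 i p (m.elim id (key i p q h k.1)) k.1
      obtain ⟨q', -, d2⟩ := pull h1 h2 i q (m.elim (key i q p h.symm k.2) id) k.2
      rw [d1, d2, map_mul, map_mul, mul_right_inj] at h
      rw [d1, d2, ih p' q' (by omega) h]
  refine (injective_iff_map_eq_one ρ).2 fun g h => ?_
  obtain ⟨p, q, rfl⟩ := nf h1 h2 g (by simp [hg])
  rw [map_mul, map_inv, mul_inv_eq_one] at h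
  rw [this _ p q (Nat.lt_succ_self _) h, mul_inv_cancel]

end

end Pool.Agent.H.MP_da3691_al
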