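import Mathlib
import Pool.Agent.H.MP_da3691_al.A

namespace Pool.Agent.H.MP_da3691_al

open Filter Topology Equiv Pool.Agent.H.MP_ed747a_al

theorem mv (a : List Bool) {k : ℕ} (hk : 0 < k) (y : X) :
    (On a c ^ k) y ≠ y ↔ lx (cat a fun _ => false) < lx y ∧ lx y < lx (cat a fun _ => true) := by
  have e1 : ∀ y : X, ¬ lx y < lx fun _ => false := fun y ⟨_, _, h⟩ => (Bool.false_le _).not_gt h
  have e2 : ∀ y : X, ¬ lx (fun _ => true) < lx y := fun y ⟨_, _, h⟩ => (Bool.le_true _).not_gt h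
  refine ⟨fun h => ?_, fun h d => ?_⟩
  · obtain ⟨w, rfl⟩ : y ∈ Set.range (cat a) := by_contra fun d => h (by rw [← map_pow, on_not _ d])
    have : ∀ b, w ≠ fun _ => b := fun b d => h (by rw [← map_pow, on_cat, d, c, Perm.pow_apply_eq_self_of_apply_eq_self (e_fix ..)])
    simp only [cat_lt_iff]
    exact ⟨(not_lt.1 (e1 w)).lt_of_ne (this _).symm, (not_lt.1 (e2 w)).lt_of_ne (this _)⟩
  · obtain ⟨w, rfl⟩ := cone a h.1.not_gt h.2.not_gt
    have t := att_on (y := w) a true hk fun i => h.1.ne (by rw [i]; rfl)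
    simp only [← c.eq_1, Perm.pow_apply_eq_self_of_apply_eq_self d] at t
    exact h.2.ne (congrArg lx (tendsto_const_nhds_iff.1 t))

theorem comm_of {a : List Bool} {φ : Perm X} {n : ℤ} (h : ∀ w, φ (cat a w) = cat a ((c ^ n) w)) : Commute φ (On a c) := by
  rw [← mul_inv_cancel_left (On a c ^ n) φ]
  exact .mul_left ((Commute.refl _).zpow_left n) (comm_on c fun w => Perm.inv_eq_iff_eq.2 (by rw [← map_zpow, on_cat]; exact h w))

theorem loc {F : ℕ → Perm X} {i : ℕ} {S : X → Prop} (h : ∀ y, S y → S (F i y)) {l : List ℕ} (hl : l.Nodup) (hi : i ∈ l)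
    (k : ∀ j ∈ l, j ≠ i → ∀ y, S y → F j y = y) {y : X} (hy : S y) : (l.map F).prod y = F i y := by
  induction l with
  | nil => simp at hi
  | cons j l ih =>
    rw [List.nodup_cons] at hl
    rw [List.map_cons, List.prod_cons, Perm.mul_apply]
    rcases eq_or_ne j i with rfl | d
    · rw [fixall (List.forall_mem_map.2 fun m a => k m (.tail _ a) (fun e => hl.1 (e ▸ a)) y hy)]
    · rw [ih hl.2 (by simpa [d.symm] using hi) fun m a => k m (.tail _ a), k j (.head _) d _ (h y hy)]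

def β (i : ℕ) : List Bool := .replicate (i + 1) true ++ [false]

theorem c_β (i j : ℕ) (w : X) : (c ^ j) (cat (β i) w) = cat (β (i + j)) w := by
  induction j with
  | zero => rfl
  | succ j ih => rw [pow_succ', Perm.mul_apply, ih]; simp only [β, ← add_assoc, List.replicate_succ, List.cons_append, cat_cons, c1]

theorem β_disj {i j : ℕ} {u w : X} (h : cat (β i) u = cat (β j) w) : i = j := by
  wlog d : i < j generalizing i j u w
  · exact (not_lt.1 d).eq_or_lt.elim .symm fun d => (this h.symm d).symm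
  simpa [cat, β, List.getElem_append, d, d.le, Nat.lt_succ_iff] using congrFun h (i + 1)

theorem merge (m : ℕ) {W : ℕ → Perm X} (hV : ∀ i, W i ∈ V) (hM : ∀ i, W i ∈ Mo) :
    ((List.range m).map fun i => c ^ i * W i * On (β 0) c ^ (i + 1) * (c ^ i * W i)⁻¹).prod =
      ((List.range m).map fun i => c ^ i * On (β 0) c ^ (i + 1) * (c ^ i)⁻¹).prod ↔ ∀ i < m, Commute (W i) (On (β 0) c) := by
  refine ⟨fun h => ?_, fun h => congrArg _ (List.map_congr_left fun i a => by
    simp [mul_assoc, ((h i (List.mem_range.1 a)).pow_right (i + 1)).left_comm])⟩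
  have hB : ∀ i, c ^ i * On (β 0) c ^ (i + 1) * (c ^ i)⁻¹ = On (β i) c ^ (i + 1) := fun i => by
    rw [← map_pow, ← map_pow, conj_on fun w => by simpa using c_β 0 i w]
  simp only [hB] at h
  have pos : ∀ a k y, lx y ≤ lx ((On a c ^ k) y) := fun a k y => by
    induction k with
    | zero => rfl
    | succ k ih => exact ih.trans (by rw [pow_succ']; exact on_pos a _)
  obtain ⟨g, hg⟩ : ∃ g : ℕ → Perm X, ∀ i, c ^ i * W i = g i := ⟨_, fun _ => rfl⟩
  have gM : ∀ i, g i ∈ Mo := fun i => hg i ▸ mul_mem (pow_mem c_mo i) (hM i)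
  simp only [hg] at h
  obtain ⟨F, hF⟩ : ∃ F : ℕ → Perm X, ∀ i, g i * On (β 0) c ^ (i + 1) * (g i)⁻¹ = F i := ⟨_, fun _ => rfl⟩
  have mF : ∀ i y, F i y ≠ y ↔ lx (g i (cat (β 0) fun _ => false)) < lx y ∧ lx y < lx (g i (cat (β 0) fun _ => true)) := fun i y => by
    obtain ⟨y, rfl⟩ := (g i).surjective y
    simp [← hF, gM i _ _, ← mv (β 0) i.succ_pos]
  have pF : ∀ i y, lx y ≤ lx (F i y) := fun i y => by
    obtain ⟨y, rfl⟩ := (g i).surjective y
    simpa [← hF, ← not_lt, gM i _ _] using pos (β 0) (i + 1) y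
  simp only [hF] at h
  have h1 : ∀ y, (∀ i < m, F i y = y) ↔ ∀ j < m, (On (β j) c ^ (j + 1)) y = y := fun y => by
    constructor <;> intro a
    · exact fun j b => posfix (ι := lx) (fun _ _ => id) (List.forall_mem_map.2 fun i _ => pos (β i) (i + 1))
        ((congrArg (· y) h).symm.trans (fixall (by simpa using a))) _ (List.mem_map_of_mem (List.mem_range.2 b))
    · exact fun j b => posfix (ι := lx) (fun _ _ => id) (List.forall_mem_map.2 fun i _ => pF i)
        ((congrArg (· y) h).trans (fixall (by simpa using a))) _ (List.mem_map_of_mem (List.mem_range.2 b))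
  have dj : ∀ i j y, (On (β i) c ^ (i + 1)) y ≠ y → y ∈ Set.range (cat (β j)) → i = j := fun i j y a ⟨u, b⟩ => by
    obtain ⟨w, d⟩ : y ∈ Set.range (cat (β i)) := by_contra fun d => a (by rw [← map_pow, on_not _ d])
    exact β_disj (d.trans b.symm)
  have dj' : ∀ i j y, (On (β i) c ^ (i + 1)) y ≠ y → (On (β j) c ^ (j + 1)) y ≠ y → i = j := fun i j y a b =>
    dj i j y a (by_contra fun d => b (by rw [← map_pow, on_not _ d]))
  have h3 : ∀ i : Fin m, ∃ j : Fin m, ∀ y, F i y ≠ y → (On (β j) c ^ (j.1 + 1)) y ≠ y := fun i => by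
    have a : F i (g i (cat (β 0) (cn false fun _ => true))) ≠ _ := (mF _ _).2 (by
      simp only [gM i _ _, cat_lt_iff]; exact ⟨⟨1, by simp [lx, cn], Bool.false_lt_true⟩, 0, by simp, Bool.false_lt_true⟩)
    obtain ⟨j, hj, b⟩ : ∃ j < m, _ := by simpa using mt (h1 _).2 fun d => a (d i i.2)
    have e : ∀ b', ¬ F i (cat (β j) fun _ => b') ≠ _ := fun b' => not_not.2 ((h1 _).2 (fun l _ => by_contra fun d => by
      obtain rfl := dj l j _ d ⟨_, rfl⟩
      rw [← ne_eq, mv _ l.succ_pos] at d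
      cases b' <;> simp at d) i i.2)
    rw [← ne_eq, mv _ j.succ_pos] at b
    refine ⟨⟨j, hj⟩, fun y d => (mv _ j.succ_pos _).2 ?_⟩
    simp only [mF, not_and, not_lt] at a d e
    exact ⟨lt_of_not_ge fun f => (e false (d.1.trans_le f)).not_gt (b.1.trans a.2),
      lt_of_not_ge fun f => (e true (a.1.trans b.2)).not_gt (f.trans_lt d.2)⟩
  choose σ hσ using h3
  have inj : σ.Injective := Finite.injective_iff_surjective.2 fun j => by
    have a := (mv (β j) j.1.succ_pos (cat (β j) (cn false fun _ => true))).2 (by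
      simp only [cat_lt_iff]; exact ⟨⟨1, by simp [lx, cn], Bool.false_lt_true⟩, 0, by simp, Bool.false_lt_true⟩)
    obtain ⟨i, hi, b⟩ : ∃ i < m, _ := by simpa using mt (h1 _).1 fun d => a (d j j.2)
    exact ⟨⟨i, hi⟩, Fin.ext (dj' _ _ _ (hσ ⟨i, hi⟩ _ b) a)⟩
  intro i hi
  obtain ⟨j, hj⟩ : ∃ j, σ ⟨i, hi⟩ = j := ⟨_, rfl⟩
  have : F i = On (β j) c ^ (j.1 + 1) := Perm.ext fun y => by
    by_cases a : (On (β j) c ^ (j.1 + 1)) y = y
    · exact (by_contra fun d => hσ ⟨i, hi⟩ y d (hj ▸ a) : F i y = y).trans a.symm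
    rw [← loc (F := F) (S := fun y => (On (β j) c ^ (j.1 + 1)) y ≠ y) (fun y b => ?_) List.nodup_range (List.mem_range.2 hi)
      (fun l b d y f => by_contra fun r => d (congrArg Fin.val (inj ((Fin.ext (dj' _ _ y (hσ ⟨l, List.mem_range.1 b⟩ y r) f)).trans hj.symm)))) a, h,
      loc (F := fun i => On (β i) c ^ (i + 1)) (S := fun y => (On (β j) c ^ (j.1 + 1)) y ≠ y) (fun y b => (Equiv.injective _).ne b)
        List.nodup_range (List.mem_range.2 j.2) (fun l _ d y f => by_contra fun r => d (dj' _ _ y r f)) a]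
    by_cases d : F i y = y
    · rwa [d]
    · exact hj ▸ hσ ⟨i, hi⟩ _ ((Equiv.injective _).ne d)
  obtain ⟨d, n, f⟩ := ns (a := β 0) (φ := (c ^ j.1)⁻¹ * g i) (mul_mem (inv_mem (pow_mem (e_mem true) _)) (hg i ▸ mul_mem (pow_mem (e_mem true) _) (hV i)))
    i.succ_pos j.1.succ_pos (by
      rw [← hF, ← hB, mul_inv_eq_iff_eq_mul] at this
      rw [mul_assoc, this]; simp [mul_assoc])
  rw [← Nat.succ_injective d, ← hg, inv_mul_cancel_left] at f
  exact comm_of f

theorem res_mem {a : List Bool} {g f : Perm X} (hg : g ∈ V) (h : ∀ w, g (cat a w) = cat a (f w)) : f ∈ V := fun y => by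
  obtain ⟨K, M, k⟩ := hg (cat a y)
  refine ⟨K, M, fun w b => ?_⟩
  have := k.add a.length (cat a w) fun i d => by
    rcases lt_or_ge i a.length with e | e
    · exact cat_lt _ _ e
    · obtain ⟨i, rfl⟩ := Nat.exists_eq_add_of_le' e
      rw [cat_add, cat_add, b i (by omega)]
  simp only [h, ← add_assoc, cat_add] at this
  exact ⟨fun i d => by simpa [cat_add] using this.1 (i + a.length) (by omega), this.2⟩

/-- `g` commutes with the two neighbours and induces `f` in the middle -/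
def Lf (g f : Perm X) : Prop := Commute g (On (β 0) c) ∧ Commute g (On (β 2) c) ∧ ∀ w, g (cat (β 1) w) = cat (β 1) (f w)

def Res (Γ : Subgroup (Perm X)) : Subgroup (Perm X) where
  carrier := {f | ∃ g ∈ Γ, Lf g f}
  one_mem' := ⟨1, one_mem _, .one_left _, .one_left _, fun _ => rfl⟩
  mul_mem' := fun ⟨_, a, b, d, f⟩ ⟨_, a', b', d', f'⟩ => ⟨_, mul_mem a a', b.mul_left b', d.mul_left d', fun w => by simp [f, f']⟩
  inv_mem' := fun ⟨_, a, b, d, f⟩ => ⟨_, inv_mem a, b.inv_left, d.inv_left, fun w => Perm.inv_eq_iff_eq.2 (by simp [f])⟩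

theorem ex_lf {g : Perm X} (hV : g ∈ V) (hM : g ∈ Mo) (h0 : Commute g (On (β 0) c)) (h2 : Commute g (On (β 2) c)) : ∃ f, Lf g f := by
  have : ∀ g : Perm X, g ∈ V → g ∈ Mo → Commute g (On (β 0) c) → Commute g (On (β 2) c) → ∀ w, g (cat (β 1) w) ∈ Set.range (cat (β 1)) :=
    fun g hV hM h0 h2 w => by
      obtain ⟨n, a⟩ := ns1 hV h0
      obtain ⟨m, b⟩ := ns1 hV h2
      have a := a fun _ => true
      have b := b fun _ => false
      rw [fix_c] at a b
      have a' : lx (cat (β 0) fun _ => true) < lx (g (cat (β 1) w)) := by rw [← a, hM]; simp [β, cat_cons, cn_lt]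
      have b' : lx (g (cat (β 1) w)) < lx (cat (β 2) fun _ => false) := by rw [← b, hM]; simp [β, cat_cons, cn_lt]
      generalize g (cat (β 1) w) = y at a' b'
      obtain ⟨p, y, rfl⟩ := cn_sh y
      obtain ⟨q, y, rfl⟩ := cn_sh y
      obtain ⟨r, y, rfl⟩ := cn_sh y
      obtain ⟨t, y, rfl⟩ := cn_sh y
      have e1 : ∀ y : X, ¬ lx y < lx fun _ => false := fun y ⟨_, _, h⟩ => (Bool.false_le _).not_gt h
      have e2 : ∀ y : X, ¬ lx (fun _ => true) < lx y := fun y ⟨_, _, h⟩ => (Bool.le_true _).not_gt h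
      cases p <;> cases q <;> cases r <;> cases t <;> simp [β, cat_cons, cat_nil, cn_lt, e1, e2, Bool.lt_iff] at a' b' ⊢
  choose f hf using this g hV hM h0 h2
  choose f' hf' using this g⁻¹ (inv_mem hV) (inv_mem hM) h0.inv_left h2.inv_left
  exact ⟨⟨f, f', fun w => cat_inj (β 1) (by simp [hf, hf']), fun w => cat_inj (β 1) (by simp [hf, hf'])⟩, h0, h2, fun w => (hf w).symm⟩

theorem lf_prod {ι : Type} {A B : ι → Perm X} {u : List ι} (h : ∀ i ∈ u, Lf (A i) (B i)) (w : X) :
    (u.map A).prod (cat (β 1) w) = cat (β 1) ((u.map B).prod w) := by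
  induction u with
  | nil => rfl
  | cons i u ih => simp [ih fun j a => h j (.tail _ a), (h i (.head _)).2.2]

theorem on_in {Γ : Subgroup (Perm X)} (h : Γ = .closure {c⁻¹, On [true] c⁻¹}) (a : List Bool) : On a c ∈ Γ := by
  have h0 : c ∈ Γ := inv_mem_iff.1 (h ▸ Subgroup.subset_closure (by simp))
  have h1 : On [true] c ∈ Γ := inv_mem_iff.1 (h ▸ Subgroup.subset_closure (by simp))
  have h2 : On [true, true] c ∈ Γ := conj_on (g := c) (a := [true]) (b := [true, true]) (fun w => by simp only [cat_cons, c1]) c ▸ mul_mem (mul_mem h0 h1) (inv_mem h0)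
  have d : On [false] c * c⁻¹ * c⁻¹ * On [true] c * c = 1 := Perm.ext fun y => by
    have d0 : ∀ w, c⁻¹ (cn false w) = cn false (cn false w) := fun _ => rfl
    have d1 : ∀ w, c⁻¹ (cn true (cn false w)) = cn false (cn true w) := fun _ => rfl
    have d2 : ∀ w, c⁻¹ (cn true (cn true w)) = cn true w := fun _ => rfl
    obtain ⟨p, y, rfl⟩ := cn_sh y
    obtain ⟨q, y, rfl⟩ := cn_sh y
    obtain ⟨r, y, rfl⟩ := cn_sh y
    cases p <;> cases q <;> cases r <;> simp only [Perm.mul_apply, c00, c01, c1, d0, d1, d2, on1, Perm.one_apply, reduceIte, reduceCtorEq]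
  have h3 : On [false] c ∈ Γ := by
    rw [show On [false] c = (c⁻¹ * c⁻¹ * On [true] c * c)⁻¹ from eq_inv_of_mul_eq_one_left (by simpa [mul_assoc] using d)]
    exact inv_mem (mul_mem (mul_mem (mul_mem (inv_mem h0) (inv_mem h0)) h1) h0)
  have t : ∀ b, On [b] c ∈ Γ → On [b, true] c ∈ Γ → ∀ f ∈ Γ, On [b] f ∈ Γ := fun b i j f a => by
    have : Γ ≤ Γ.comap (On [b]) := by
      nth_rw 1 [h]
      rw [Subgroup.closure_le]
      rintro _ (rfl | rfl) <;> simpa [← on_cons]
    exact this a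
  have h4 : On [false, true] c ∈ Γ := by
    have := t true h1 h2 _ h3
    rw [← on_cons, ← conj_on (g := c) (a := [false, true]) (fun w => by simp only [cat_cons, c01]) c] at this
    simpa [mul_assoc] using mul_mem (mul_mem (inv_mem h0) this) h0
  induction a with
  | nil => rwa [on_nil]
  | cons b a ih =>
    rw [on_cons]
    cases b
    exacts [t _ h3 h4 _ ih, t _ h1 h2 _ ih]

end Pool.Agent.H.MP_da3691_al
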